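import Pool.Agent.Helper68.SDP.Spec

set_option autoImplicit false

namespace Pool.Agent.Helper61.SDPFO

open Finset
open Pool.Agent.Helper68.SDP

/-- sign of a bit -/
def sg (b : Bool) : ℝ := if b = true then (-1 : ℝ) else 1

lemma sg_mul_self (b : Bool) : sg b * sg b = 1 := by cases b <;> simp [sg]

section
variable {ι : Type}

lemma chi_eq (A : Finset ι) (x : ι → Bool) : chi A x = ∏ i ∈ A, sg (x i) := rfl

variable [Fintype ι] [DecidableEq ι]

/-- orthogonality of characters -/
lemma orth (A B : Finset ι) :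
    ∑ x : ι → Bool, chi A x * chi B x = if A = B then (2 : ℝ) ^ Fintype.card ι else 0 := by
  have h1 : ∀ x : ι → Bool, chi A x * chi B x =
      ∏ i, ((if i ∈ A then sg (x i) else 1) * (if i ∈ B then sg (x i) else 1)) := by
    intro x
    rw [Finset.prod_mul_distrib, Finset.prod_ite_mem, Finset.prod_ite_mem, Finset.univ_inter,
      Finset.univ_inter, chi_eq, chi_eq]
  simp_rw [h1]
  have h2 := Finset.prod_univ_sum (fun _ : ι => (Finset.univ : Finset Bool))
    (fun i b => (if i ∈ A then sg b else 1) * (if i ∈ B then sg b else 1))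
  rw [Fintype.piFinset_univ] at h2
  rw [← h2]
  split_ifs with h
  · subst h
    have : ∀ i, ∑ b : Bool, (if i ∈ A then sg b else 1) * (if i ∈ A then sg b else 1) = 2 := by
      intro i
      by_cases hi : i ∈ A
      · simp [hi, sg]; norm_num
      · simp [hi]
    rw [Finset.prod_congr rfl fun i _ => this i, Finset.prod_const, Finset.card_univ]
  · have : ∃ i, ¬ (i ∈ A ↔ i ∈ B) := by
      by_contra hcon
      push Not at hcon
      exact h (Finset.ext fun i => hcon i)
    obtain ⟨i, hi⟩ := this
    apply Finset.prod_eq_zero (Finset.mem_univ i)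
    by_cases hA : i ∈ A
    · have hB : i ∉ B := fun hB => hi ⟨fun _ => hB, fun _ => hA⟩
      simp [hA, hB, sg]
    · have hB : i ∈ B := by
        by_contra hB
        exact hi ⟨fun h => absurd h hA, fun h => absurd h hB⟩
      simp [hA, hB, sg]

omit [DecidableEq ι] in
/-- completeness of characters -/
lemma compl (x y : ι → Bool) :
    ∑ A : Finset ι, chi A x * chi A y = if x = y then (2 : ℝ) ^ Fintype.card ι else 0 := by
  have h1 : ∀ A : Finset ι, chi A x * chi A y = ∏ i ∈ A, (sg (x i) * sg (y i)) := by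
    intro A
    rw [chi_eq, chi_eq, Finset.prod_mul_distrib]
  simp_rw [h1]
  have h2 := Finset.prod_one_add (s := (Finset.univ : Finset ι)) (f := fun i => sg (x i) * sg (y i))
  rw [Finset.powerset_univ] at h2
  rw [← h2]
  split_ifs with h
  · subst h
    have : ∀ i, 1 + sg (x i) * sg (x i) = 2 := fun i => by rw [sg_mul_self]; norm_num
    simp [this]
  · obtain ⟨i, hi⟩ := Function.ne_iff.mp h
    apply Finset.prod_eq_zero (Finset.mem_univ i)
    revert hi
    cases x i <;> cases y i <;> simp [sg]

/-- Fourier coefficient -/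
noncomputable def coef (A : Finset ι) : ((ι → Bool) → ℝ) →ₗ[ℝ] ℝ where
  toFun q := ((2 : ℝ) ^ Fintype.card ι)⁻¹ * ∑ x, chi A x * q x
  map_add' q r := by
    simp only [Pi.add_apply, mul_add, Finset.sum_add_distrib]
  map_smul' a q := by
    simp only [Pi.smul_apply, smul_eq_mul, RingHom.id_apply, Finset.mul_sum]
    apply Finset.sum_congr rfl
    intro x _
    ring

lemma coef_apply (A : Finset ι) (q : (ι → Bool) → ℝ) :
    coef A q = ((2 : ℝ) ^ Fintype.card ι)⁻¹ * ∑ x, chi A x * q x := rfl

lemma inversion (q : (ι → Bool) → ℝ) (x : ι → Bool) : q x = ∑ A, coef A q * chi A x := by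
  have h2 : ((2 : ℝ) ^ Fintype.card ι) ≠ 0 := by positivity
  have h1 : ∀ A : Finset ι, coef A q * chi A x =
      ∑ y, ((2 : ℝ) ^ Fintype.card ι)⁻¹ * q y * (chi A x * chi A y) := by
    intro A
    rw [coef_apply, mul_assoc, Finset.sum_mul, Finset.mul_sum]
    apply Finset.sum_congr rfl
    intro y _
    ring
  simp_rw [h1]
  rw [Finset.sum_comm]
  have h3 : ∀ y : ι → Bool, ∑ A : Finset ι, ((2 : ℝ) ^ Fintype.card ι)⁻¹ * q y * (chi A x * chi A y) =
      if x = y then q x else 0 := by
    intro y
    rw [← Finset.mul_sum, compl]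
    split_ifs with h
    · subst h; field_simp
    · simp
  simp_rw [h3]
  simp

lemma parseval (a : Finset ι → ℝ) :
    ∑ x : ι → Bool, (∑ A, a A * chi A x) ^ 2 = (2 : ℝ) ^ Fintype.card ι * ∑ A, a A ^ 2 := by
  have h1 : ∀ x : ι → Bool, (∑ A, a A * chi A x) ^ 2 =
      ∑ A, ∑ B, a A * a B * (chi A x * chi B x) := by
    intro x
    rw [sq, Finset.sum_mul_sum]
    apply Finset.sum_congr rfl
    intro A _
    apply Finset.sum_congr rfl
    intro B _
    ring
  simp_rw [h1]
  rw [Finset.sum_comm, Finset.mul_sum]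
  apply Finset.sum_congr rfl
  intro A _
  rw [Finset.sum_comm]
  have h3 : ∀ B : Finset ι, ∑ x : ι → Bool, a A * a B * (chi A x * chi B x) =
      if A = B then (2 : ℝ) ^ Fintype.card ι * a A ^ 2 else 0 := by
    intro B
    rw [← Finset.mul_sum, orth]
    split_ifs with h
    · subst h; ring
    · simp
  simp_rw [h3]
  simp

lemma coef_chi (A B : Finset ι) : coef A (chi B) = if A = B then 1 else 0 := by
  rw [coef_apply, orth]
  have h2 : ((2 : ℝ) ^ Fintype.card ι) ≠ 0 := by positivity
  split_ifs
  · field_simp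
  · simp

lemma coef_deg {k : ℕ} {q : (ι → Bool) → ℝ} (hq : q ∈ Deg ι k) {A : Finset ι} (hA : k < A.card) :
    coef A q = 0 := by
  unfold Deg at hq
  induction hq using Submodule.span_induction with
  | mem q hq =>
    obtain ⟨B, hB, rfl⟩ := hq
    rw [coef_chi, if_neg]
    rintro rfl
    omega
  | zero => simp
  | add q r _ _ h1 h2 => rw [map_add, h1, h2, add_zero]
  | smul a q _ h => rw [map_smul, h, smul_zero]

end

variable {m N : ℕ}

/-- the selected coordinates of `A` -/
def TT (φ : Fin m → Fin N) (A : Finset (Fin m × Fin N)) : Finset (Fin m) :=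
  univ.filter fun i => (i, φ i) ∈ A

/-- the part of low degree in the selected variables -/
noncomputable def low (t : ℕ) (φ : Fin m → Fin N) :
    ((Fin m × Fin N → Bool) → ℝ) →ₗ[ℝ] ((Fin m × Fin N → Bool) → ℝ) where
  toFun q := fun x => ∑ A, (if (TT φ A).card ≤ t then coef A q else 0) * chi A x
  map_add' q r := by
    funext x
    simp only [Pi.add_apply, ← Finset.sum_add_distrib]
    apply Finset.sum_congr rfl
    intro A _
    split_ifs
    · rw [map_add]; ring
    · ring
  map_smul' a q := by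
    funext x
    simp only [Pi.smul_apply, smul_eq_mul, RingHom.id_apply, Finset.mul_sum]
    apply Finset.sum_congr rfl
    intro A _
    split_ifs
    · rw [map_smul, smul_eq_mul]; ring
    · ring

lemma low_apply (t : ℕ) (φ : Fin m → Fin N) (q : (Fin m × Fin N → Bool) → ℝ)
    (x : Fin m × Fin N → Bool) :
    low t φ q x = ∑ A, (if (TT φ A).card ≤ t then coef A q else 0) * chi A x := rfl

/-- replace the selected variables -/
def rep (φ : Fin m → Fin N) (x : Fin m × Fin N → Bool) (z : Fin m → Bool) :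
    Fin m × Fin N → Bool := fun p => if p.2 = φ p.1 then z p.1 else x p

lemma sel_rep (φ : Fin m → Fin N) (x : Fin m × Fin N → Bool) (z : Fin m → Bool) :
    sel φ (rep φ x z) = z := by
  funext i; simp [sel, rep]

lemma rep_sel (φ : Fin m → Fin N) (x : Fin m × Fin N → Bool) (z : Fin m → Bool) :
    rep φ (rep φ x z) (sel φ x) = x := by
  funext ⟨i, j⟩
  by_cases h : j = φ i
  · subst h; simp [rep, sel]
  · simp [rep, h]

lemma sum_rep (φ : Fin m → Fin N) (G : (Fin m × Fin N → Bool) → ℝ) :
    ∑ x, ∑ z, G (rep φ x z) = 2 ^ m * ∑ x, G x := by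
  let σ : (Fin m × Fin N → Bool) × (Fin m → Bool) → (Fin m × Fin N → Bool) × (Fin m → Bool) :=
    fun p => (rep φ p.1 p.2, sel φ p.1)
  have hσ : Function.Involutive σ := by
    rintro ⟨x, z⟩
    simp only [σ, rep_sel, sel_rep]
  have h1 : ∑ p : (Fin m × Fin N → Bool) × (Fin m → Bool), G (σ p).1 =
      ∑ p : (Fin m × Fin N → Bool) × (Fin m → Bool), G p.1 :=
    Equiv.sum_comp hσ.toPerm (fun p => G p.1)
  rw [Fintype.sum_prod_type, Fintype.sum_prod_type] at h1
  simp only [σ] at h1
  rw [h1]
  simp [Finset.mul_sum]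

lemma chi_rep (φ : Fin m → Fin N) (x : Fin m × Fin N → Bool) (z : Fin m → Bool)
    (A : Finset (Fin m × Fin N)) :
    chi A (rep φ x z) = chi (A.filter fun p => ¬ p.2 = φ p.1) x * chi (TT φ A) z := by
  rw [chi_eq, ← Finset.prod_filter_mul_prod_filter_not A (fun p => ¬ p.2 = φ p.1)]
  congr 1
  · rw [chi_eq]
    apply Finset.prod_congr rfl
    intro p hp
    rw [Finset.mem_filter] at hp
    simp [rep, hp.2]
  · rw [chi_eq]
    symm
    apply Finset.prod_bij (fun i _ => (i, φ i))
    · intro i hi
      simp only [TT, Finset.mem_filter, Finset.mem_univ, true_and] at hi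
      simp [hi]
    · intro i _ i' _ h
      exact (Prod.mk.inj h).1
    · rintro ⟨i, j⟩ hp
      simp only [Finset.mem_filter, not_not] at hp
      refine ⟨i, ?_, ?_⟩
      · simp only [TT, Finset.mem_filter, Finset.mem_univ, true_and]
        rw [← hp.2]; exact hp.1
      · rw [← hp.2]
    · intro i _
      simp [rep]

lemma low_nonneg (t : ℕ) (D : (Fin m → Bool) → ℝ) (hD : Pseudo m t D) (φ : Fin m → Fin N)
    (q : (Fin m × Fin N → Bool) → ℝ) : 0 ≤ ∑ x, D (sel φ x) * low t φ q x ^ 2 := by
  have h1 := sum_rep φ (fun x => D (sel φ x) * low t φ q x ^ 2)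
  have h2 : 0 ≤ ∑ x : Fin m × Fin N → Bool, ∑ z : Fin m → Bool,
      D (sel φ (rep φ x z)) * low t φ q (rep φ x z) ^ 2 := by
    apply Finset.sum_nonneg
    intro x _
    simp_rw [sel_rep]
    apply hD
    have h3 : (fun z => low t φ q (rep φ x z)) =
        ∑ A, ((if (TT φ A).card ≤ t then coef A q else 0) *
          chi (A.filter fun p => ¬ p.2 = φ p.1) x) • chi (TT φ A) := by
      funext z
      rw [low_apply, Finset.sum_apply]
      apply Finset.sum_congr rfl
      intro A _
      rw [chi_rep, Pi.smul_apply, smul_eq_mul]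
      ring
    rw [h3]
    apply Submodule.sum_mem
    intro A _
    by_cases hA : (TT φ A).card ≤ t
    · apply Submodule.smul_mem
      exact Submodule.subset_span ⟨TT φ A, hA, rfl⟩
    · rw [if_neg hA, zero_mul, zero_smul]
      exact Submodule.zero_mem _
  rw [h1] at h2
  have h3 : (0 : ℝ) < 2 ^ m := by positivity
  exact nonneg_of_mul_nonneg_right h2 h3

lemma count (t k : ℕ) (A : Finset (Fin m × Fin N)) (hA : A.card ≤ k) :
    ((univ.filter fun φ : Fin m → Fin N => ¬ (TT φ A).card ≤ t).card : ℝ) * (N : ℝ) ^ (t + 1) ≤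
      2 ^ m * (k : ℝ) ^ (t + 1) * (N : ℝ) ^ m := by
  have hNk : (univ.filter fun φ : Fin m → Fin N => ¬ (TT φ A).card ≤ t) ⊆
      (powersetCard (t + 1) (univ : Finset (Fin m))).biUnion
        fun T => Fintype.piFinset fun i => if i ∈ T then univ.filter fun j => (i, j) ∈ A else univ := by
    intro φ hφ
    rw [Finset.mem_filter] at hφ
    have h1 : t + 1 ≤ (TT φ A).card := by omega
    obtain ⟨T, hT1, hT2⟩ := Finset.exists_subset_card_eq h1
    rw [Finset.mem_biUnion]
    refine ⟨T, ?_, ?_⟩
    · rw [Finset.mem_powersetCard]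
      exact ⟨Finset.subset_univ _, hT2⟩
    · rw [Fintype.mem_piFinset]
      intro i
      split_ifs with hi
      · have := hT1 hi
        simp only [TT, Finset.mem_filter, Finset.mem_univ, true_and] at this
        simp [this]
      · simp
  have hT : ∀ T ∈ powersetCard (t + 1) (univ : Finset (Fin m)),
      (Fintype.piFinset fun i => if i ∈ T then univ.filter fun j => (i, j) ∈ A
        else (univ : Finset (Fin N))).card * N ^ (t + 1) ≤ k ^ (t + 1) * N ^ m := by
    intro T hT
    rw [Finset.mem_powersetCard] at hT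
    have h1 : (Fintype.piFinset fun i => if i ∈ T then univ.filter fun j => (i, j) ∈ A
        else (univ : Finset (Fin N))).card ≤ ∏ i : Fin m, (if i ∈ T then k else N) := by
      rw [Fintype.card_piFinset]
      apply Finset.prod_le_prod'
      intro i _
      split_ifs with hi
      · refine le_trans ?_ hA
        apply Finset.card_le_card_of_injOn (fun j => (i, j))
        · intro j hj
          simp only [Finset.coe_filter, Finset.mem_univ, true_and] at hj
          exact hj
        · intro j _ j' _ h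
          exact (Prod.mk.inj h).2
      · simp
    have h2 : ∏ i : Fin m, (if i ∈ T then k else N) = k ^ (t + 1) * N ^ (m - (t + 1)) := by
      rw [Finset.prod_ite, Finset.prod_const, Finset.prod_const]
      have e1 : (univ.filter fun i => i ∈ T) = T := by ext; simp
      have e2 : (univ.filter fun i => i ∉ T) = Tᶜ := by ext; simp
      rw [e1, e2, Finset.card_compl, hT.2, Fintype.card_fin]
    have h3 : t + 1 ≤ m := by
      have := Finset.card_le_univ T
      rw [hT.2, Fintype.card_fin] at this
      exact this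
    calc _ ≤ (k ^ (t + 1) * N ^ (m - (t + 1))) * N ^ (t + 1) := by
          rw [← h2]; exact Nat.mul_le_mul_right _ h1
      _ = k ^ (t + 1) * N ^ m := by
          rw [mul_assoc, ← pow_add]
          congr 2
          omega
  have hnat : (univ.filter fun φ : Fin m → Fin N => ¬ (TT φ A).card ≤ t).card * N ^ (t + 1) ≤
      2 ^ m * (k ^ (t + 1) * N ^ m) := by
    calc _ ≤ (∑ T ∈ powersetCard (t + 1) (univ : Finset (Fin m)),
          (Fintype.piFinset fun i => if i ∈ T then univ.filter fun j => (i, j) ∈ A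
            else (univ : Finset (Fin N))).card) * N ^ (t + 1) :=
          Nat.mul_le_mul_right _ ((Finset.card_le_card hNk).trans Finset.card_biUnion_le)
      _ ≤ ∑ T ∈ powersetCard (t + 1) (univ : Finset (Fin m)), k ^ (t + 1) * N ^ m := by
          rw [Finset.sum_mul]
          exact Finset.sum_le_sum hT
      _ = (m.choose (t + 1)) * (k ^ (t + 1) * N ^ m) := by
          rw [Finset.sum_const, Finset.card_powersetCard, Finset.card_univ, Fintype.card_fin,
            smul_eq_mul]
      _ ≤ 2 ^ m * (k ^ (t + 1) * N ^ m) := by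
          apply Nat.mul_le_mul_right
          exact Nat.choose_le_two_pow m (t + 1)
  have : (((univ.filter fun φ : Fin m → Fin N => ¬ (TT φ A).card ≤ t).card * N ^ (t + 1) : ℕ) : ℝ) ≤
      ((2 ^ m * (k ^ (t + 1) * N ^ m) : ℕ) : ℝ) := by exact_mod_cast hnat
  push_cast at this
  rw [mul_assoc (2 ^ m : ℝ)]
  exact this

theorem fo : Pool.Agent.Helper68.SDP.specFO := by
  intro m N t k hN D hD
  refine ⟨low t, fun φ q => low_nonneg t D hD φ q, ?_⟩
  intro q hq
  set n := Fintype.card (Fin m × Fin N) with hn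
  have h1 : ∀ φ : Fin m → Fin N, ∑ x, (q x - low t φ q x) ^ 2 =
      (2 : ℝ) ^ n * ∑ A, (if ¬ (TT φ A).card ≤ t then coef A q ^ 2 else 0) := by
    intro φ
    have e1 : ∀ x, q x - low t φ q x = ∑ A, (if (TT φ A).card ≤ t then 0 else coef A q) * chi A x := by
      intro x
      rw [low_apply]
      conv_lhs => rw [inversion q x]
      rw [← Finset.sum_sub_distrib]
      apply Finset.sum_congr rfl
      intro A _
      split_ifs <;> ring
    simp_rw [e1]
    rw [parseval]
    congr 1
    apply Finset.sum_congr rfl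
    intro A _
    split_ifs <;> simp_all
  have h2 : ∑ x, q x ^ 2 = (2 : ℝ) ^ n * ∑ A, coef A q ^ 2 := by
    have : ∀ x, q x ^ 2 = (∑ A, coef A q * chi A x) ^ 2 := fun x => by rw [← inversion q x]
    simp_rw [this]
    rw [parseval]
  simp_rw [h1]
  rw [h2, ← Finset.mul_sum, Finset.sum_comm]
  have h3 : ∀ A : Finset (Fin m × Fin N),
      (∑ φ : Fin m → Fin N, (if ¬ (TT φ A).card ≤ t then coef A q ^ 2 else 0)) * (N : ℝ) ^ (t + 1) ≤
        2 ^ m * (k : ℝ) ^ (t + 1) * (N : ℝ) ^ m * coef A q ^ 2 := by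
    intro A
    rw [← Finset.sum_filter, Finset.sum_const, nsmul_eq_mul]
    by_cases hA : A.card ≤ k
    · have := count t k A hA
      nlinarith [sq_nonneg (coef A q)]
    · rw [coef_deg hq (by omega)]
      simp
  have h4 : (∑ A : Finset (Fin m × Fin N), ∑ φ : Fin m → Fin N,
      (if ¬ (TT φ A).card ≤ t then coef A q ^ 2 else 0)) * (N : ℝ) ^ (t + 1) ≤
      2 ^ m * (k : ℝ) ^ (t + 1) * (N : ℝ) ^ m * ∑ A, coef A q ^ 2 := by
    rw [Finset.sum_mul, Finset.mul_sum]
    exact Finset.sum_le_sum fun A _ => h3 A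
  have h5 : (0 : ℝ) ≤ 2 ^ n := by positivity
  calc _ = (2 : ℝ) ^ n * ((∑ A : Finset (Fin m × Fin N), ∑ φ : Fin m → Fin N,
      (if ¬ (TT φ A).card ≤ t then coef A q ^ 2 else 0)) * (N : ℝ) ^ (t + 1)) := by ring
    _ ≤ (2 : ℝ) ^ n * (2 ^ m * (k : ℝ) ^ (t + 1) * (N : ℝ) ^ m * ∑ A, coef A q ^ 2) :=
        mul_le_mul_of_nonneg_left h4 h5
    _ = _ := by ring

end Pool.Agent.Helper61.SDPFO
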