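import Pool.Agent.Helper68.SDP.Spec

set_option autoImplicit false

namespace Pool.Agent.Helper61.SDPDU

open Matrix Finset

/-- the affine matrix map -/
noncomputable def BB {d r : ℕ} (B₀ : Matrix (Fin r) (Fin r) ℝ)
    (B : Fin d → Matrix (Fin r) (Fin r) ℝ) (y : Fin d → ℝ) : Matrix (Fin r) (Fin r) ℝ :=
  B₀ + ∑ j, y j • B j

lemma sum_BB {d r : ℕ} (B₀ : Matrix (Fin r) (Fin r) ℝ) (B : Fin d → Matrix (Fin r) (Fin r) ℝ)
    {ι : Type} [Fintype ι] (x : ι → Fin d → ℝ) (μ : ι → ℝ) :
    ∑ i, μ i • BB B₀ B (x i) = (∑ i, μ i) • B₀ + ∑ j, (∑ i, μ i * x i j) • B j := by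
  unfold BB
  simp_rw [smul_add, Finset.sum_add_distrib, Finset.smul_sum, smul_smul, Finset.sum_smul]
  congr 1
  rw [Finset.sum_comm]

theorem du : Pool.Agent.Helper68.SDP.specDU := by
  intro d r s B₀ B E e hB₀ hB ι _ _ x hx hE c c₀ t hopt η hη
  classical
  set v : ι → ℝ := fun i => ∑ j, c j * x i j + c₀ - t with hv
  set C : Set (ι → ℝ) := {w | ∃ (U : Matrix (Fin r) (Fin r) ℝ) (u₀ : ℝ), U.PosSemidef ∧ 0 ≤ u₀ ∧
    ∀ i, w i = u₀ + (U * BB B₀ B (x i)).trace} with hC
  have hconv : Convex ℝ C := by
    rintro w ⟨U, u₀, hU, hu₀, hw⟩ w' ⟨U', u₀', hU', hu₀', hw'⟩ a b ha hb hab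
    refine ⟨a • U + b • U', a * u₀ + b * u₀', (hU.smul ha).add (hU'.smul hb), by positivity, ?_⟩
    intro i
    rw [Pi.add_apply, Pi.smul_apply, Pi.smul_apply, hw, hw', add_mul, smul_mul_assoc,
      smul_mul_assoc, trace_add, trace_smul, trace_smul]
    simp only [smul_eq_mul]
    ring
  have h0 : (0 : ι → ℝ) ∈ C := ⟨0, 0, PosSemidef.zero, le_refl _, fun i => by simp⟩
  have hscale : ∀ w ∈ C, ∀ a : ℝ, 0 ≤ a → a • w ∈ C := by
    intro w hw a ha
    obtain ⟨U, u₀, hU, hu₀, hw⟩ := hw
    refine ⟨a • U, a * u₀, hU.smul ha, by positivity, fun i => ?_⟩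
    rw [Pi.smul_apply, hw, smul_mul_assoc, trace_smul]
    simp only [smul_eq_mul]
    ring
  by_cases hmem : v ∈ closure C
  · rw [Metric.mem_closure_iff] at hmem
    obtain ⟨w, ⟨U, u₀, hU, hu₀, hw⟩, hd⟩ := hmem η hη
    refine ⟨U, u₀, hU, hu₀, fun i => ?_⟩
    have h1 := dist_le_pi_dist v w i
    rw [Real.dist_eq, hw] at h1
    exact h1.trans hd.le
  · exfalso
    obtain ⟨f, u, hf1, hf2⟩ := geometric_hahn_banach_closed_point hconv.closure isClosed_closure hmem
    have hu : 0 < u := by
      have := hf1 0 (subset_closure h0)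
      simpa using this
    have hle : ∀ w ∈ C, f w ≤ 0 := by
      intro w hw
      by_contra hcon
      push Not at hcon
      have h1 := hf1 _ (subset_closure (hscale w hw (u / f w) (by positivity)))
      rw [map_smul, smul_eq_mul, div_mul_cancel₀ _ hcon.ne'] at h1
      exact lt_irrefl _ h1
    have hfv : 0 < f v := hu.trans hf2
    set μ : ι → ℝ := fun i => - f (fun j => if i = j then 1 else 0) with hμ
    have hfs : ∀ w : ι → ℝ, f w = - ∑ i, μ i * w i := by
      intro w
      have := LinearMap.pi_apply_eq_sum_univ (f : (ι → ℝ) →ₗ[ℝ] ℝ) w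
      simp only [ContinuousLinearMap.coe_coe, smul_eq_mul] at this
      rw [this, ← Finset.sum_neg_distrib]
      apply Finset.sum_congr rfl
      intro i _
      simp only [hμ]
      ring
    have hμC : ∀ w ∈ C, 0 ≤ ∑ i, μ i * w i := by
      intro w hw
      have := hle w hw
      rw [hfs] at this
      linarith
    have hμv : ∑ i, μ i * v i < 0 := by
      rw [hfs] at hfv; linarith
    -- total mass
    have hs0 : 0 ≤ ∑ i, μ i := by
      have h1 := hμC (fun _ => 1) ⟨0, 1, PosSemidef.zero, zero_le_one, fun i => by simp⟩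
      simpa using h1
    -- positivity of the combined matrix
    have hpsd : (∑ i, μ i • BB B₀ B (x i)).PosSemidef := by
      have hherm : ∀ y : Fin d → ℝ, (BB B₀ B y).IsHermitian := by
        intro y
        unfold BB
        apply hB₀.add
        unfold Matrix.IsHermitian
        rw [conjTranspose_sum]
        apply Finset.sum_congr rfl
        intro j _
        rw [conjTranspose_smul, (hB j).eq]
        simp
      refine PosSemidef.of_dotProduct_mulVec_nonneg ?_ ?_
      · unfold Matrix.IsHermitian
        rw [conjTranspose_sum]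
        apply Finset.sum_congr rfl
        intro i _
        rw [conjTranspose_smul, (hherm (x i)).eq]
        simp
      · intro z
        have hU : (vecMulVec z (star z)).PosSemidef := posSemidef_vecMulVec_self_star z
        have h1 := hμC (fun i => 0 + (vecMulVec z (star z) * BB B₀ B (x i)).trace)
          ⟨_, 0, hU, le_refl _, fun i => rfl⟩
        have h2 : star z ⬝ᵥ ((∑ i, μ i • BB B₀ B (x i)) *ᵥ z) =
            ∑ i, μ i * (0 + (vecMulVec z (star z) * BB B₀ B (x i)).trace) := by
          rw [Matrix.sum_mulVec, dotProduct_sum]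
          apply Finset.sum_congr rfl
          intro i _
          rw [smul_mulVec, dotProduct_smul, zero_add, smul_eq_mul]
          congr 1
          rw [vecMulVec_mul, trace_vecMulVec, dotProduct_mulVec, dotProduct_comm]
        rw [h2]
        exact h1
    have hlin : ∀ i, μ i * v i = (∑ j, c j * (μ i * x i j)) + μ i * (c₀ - t) := by
      intro i
      simp only [hv]
      rw [show μ i * (∑ j, c j * x i j + c₀ - t) = μ i * (∑ j, c j * x i j) + μ i * (c₀ - t) by ring,
        Finset.mul_sum]
      congr 1
      apply Finset.sum_congr rfl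
      intro j _
      ring
    have hsumv : ∑ i, μ i * v i = (∑ j, c j * ∑ i, μ i * x i j) + (∑ i, μ i) * (c₀ - t) := by
      rw [Finset.sum_congr rfl fun i _ => hlin i, Finset.sum_add_distrib, Finset.sum_comm,
        Finset.sum_mul]
      congr 1
      apply Finset.sum_congr rfl
      intro j _
      rw [Finset.mul_sum]
    have hEs : ∀ k, ∑ j, E k j * ∑ i, μ i * x i j = (∑ i, μ i) * e k := by
      intro k
      have h1 : ∀ j, E k j * ∑ i, μ i * x i j = ∑ i, μ i * (E k j * x i j) := by
        intro j
        rw [Finset.mul_sum]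
        apply Finset.sum_congr rfl
        intro i _
        ring
      rw [Finset.sum_congr rfl fun j _ => h1 j, Finset.sum_comm, Finset.sum_mul]
      apply Finset.sum_congr rfl
      intro i _
      rw [← Finset.mul_sum, hE i k]
    rcases hs0.lt_or_eq with hs | hs
    · -- positive total mass
      set σ := ∑ i, μ i with hσ
      have h1 := hopt (fun j => σ⁻¹ * ∑ i, μ i * x i j) (by
        have : B₀ + ∑ j, (σ⁻¹ * ∑ i, μ i * x i j) • B j = σ⁻¹ • ∑ i, μ i • BB B₀ B (x i) := by
          rw [sum_BB, ← hσ, smul_add, smul_smul, inv_mul_cancel₀ hs.ne', one_smul, Finset.smul_sum]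
          congr 1
          apply Finset.sum_congr rfl
          intro j _
          rw [smul_smul]
        rw [this]
        exact hpsd.smul (by positivity))
        (by
          intro k
          have h2 : ∑ j, E k j * (σ⁻¹ * ∑ i, μ i * x i j) = σ⁻¹ * ∑ j, E k j * ∑ i, μ i * x i j := by
            rw [Finset.mul_sum]
            apply Finset.sum_congr rfl
            intro j _
            ring
          rw [h2, hEs, ← mul_assoc, inv_mul_cancel₀ hs.ne', one_mul])
      have h2 : ∑ j, c j * (σ⁻¹ * ∑ i, μ i * x i j) = σ⁻¹ * ∑ j, c j * ∑ i, μ i * x i j := by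
        rw [Finset.mul_sum]
        apply Finset.sum_congr rfl
        intro j _
        ring
      rw [h2] at h1
      have h3 : σ * t ≤ (∑ j, c j * ∑ i, μ i * x i j) + σ * c₀ := by
        have := mul_le_mul_of_nonneg_left h1 hs.le
        rw [mul_add, ← mul_assoc, mul_inv_cancel₀ hs.ne', one_mul] at this
        exact this
      rw [hsumv] at hμv
      nlinarith
    · -- zero total mass
      obtain ⟨i0⟩ : Nonempty ι := inferInstance
      have hkey : ∀ K : ℝ, 0 ≤ K →
          t ≤ ∑ j, c j * x i0 j + c₀ + K * ∑ i, μ i * v i := by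
        intro K hK
        have h1 := hopt (fun j => x i0 j + K * ∑ i, μ i * x i j) (by
          have : B₀ + ∑ j, (x i0 j + K * ∑ i, μ i * x i j) • B j =
              (B₀ + ∑ j, x i0 j • B j) + K • ∑ i, μ i • BB B₀ B (x i) := by
            rw [sum_BB, ← hs, zero_smul, zero_add, add_assoc, Finset.smul_sum,
              ← Finset.sum_add_distrib]
            congr 1
            apply Finset.sum_congr rfl
            intro j _
            rw [smul_smul, ← add_smul]
          rw [this]
          exact (hx i0).add (hpsd.smul hK))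
          (by
            intro k
            have h2 : ∑ j, E k j * (x i0 j + K * ∑ i, μ i * x i j) =
                ∑ j, E k j * x i0 j + K * ∑ j, E k j * ∑ i, μ i * x i j := by
              rw [Finset.mul_sum, ← Finset.sum_add_distrib]
              apply Finset.sum_congr rfl
              intro j _
              ring
            rw [h2, hEs, hE i0 k, ← hs]
            ring)
        have h2 : ∑ j, c j * (x i0 j + K * ∑ i, μ i * x i j) =
            ∑ j, c j * x i0 j + K * ∑ j, c j * ∑ i, μ i * x i j := by
          rw [Finset.mul_sum, ← Finset.sum_add_distrib]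
          apply Finset.sum_congr rfl
          intro j _
          ring
        rw [h2] at h1
        rw [hsumv, ← hs]
        linarith
      set S := ∑ i, μ i * v i with hS
      set W := ∑ j, c j * x i0 j + c₀ with hW
      have h1 := hkey ((|W - t| + 1) / (-S)) (div_nonneg (by positivity) (by linarith))
      have h2 : (|W - t| + 1) / (-S) * S = -(|W - t| + 1) := by
        have : S ≠ 0 := hμv.ne
        field_simp
      rw [h2] at h1
      have h3 := le_abs_self (W - t)
      linarith

end Pool.Agent.Helper61.SDPDU
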